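import Pool.Agent.Q283.FG.Stm4
import Pool.Agent.Q154.FT.FIT

/-!
# FG-FIT: every `D` belongs to a tuple of primes
-/

set_option autoImplicit false

namespace Pool.Agent.Q68.FG

theorem fit : Pool.Agent.Q283.FG.S_FIT := by
  intro F _ _ y D0 D hD0 hD hN
  obtain ⟨k, q, hq, hs, hf⟩ := Pool.Agent.Q154.FT.fit F y D0 D hD0 hD hN.1.2
  exact ⟨k, q, hq, hs, hf, hN.2⟩

end Pool.Agent.Q68.FG
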