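import Pool.Agent.Q150.LK.HS1A
import Pool.Agent.Q283.FG.Stm1

/-!
# Project FG (helper283), job HSA: Artin's law of reciprocity for `F(√c)` with positivity

The proof is that of `Pool.Agent.Q68.EN.hs1a_gen`, with positivity at the real places.
-/

set_option autoImplicit false
set_option linter.unusedSectionVars false

namespace Pool.Agent.Q68.FG

open NumberField IsDedekindDomain Finset Polynomial
open Pool.Agent.Q7.LK Pool.Agent.Q92.AR Pool.Agent.Q20.EX Pool.Agent.Q150.LK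

section

variable {F : Type} [Field F] [NumberField F]

/-- the elements near `1` at the primes of `S` are killed by `χ` -/
def GdP (χ : Dv F →+ Additive ℂˣ) (S : Set (HeightOneSpectrum (𝓞 F))) : Prop :=
  S.Finite ∧ ∃ k : ℕ, ∀ x : Fˣ, Pos (x : F) → (∀ v ∈ S, v.valuation F ((x : F) - 1) < WithZero.exp (-(k : ℤ))) →
    χ (prin x) = 0

theorem GdP.inter (hAPX : Pool.Agent.Q283.FG.S_APX) {χ : Dv F →+ Additive ℂˣ} {S T : Set (HeightOneSpectrum (𝓞 F))} (hS : GdP χ S)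
    (hT : GdP χ T) : GdP χ (S ∩ T) := by
  classical
  obtain ⟨hSf, k1, h1⟩ := hS
  obtain ⟨hTf, k2, h2⟩ := hT
  refine ⟨hSf.inter_of_left _, max k1 k2, fun x hpx hx => ?_⟩
  obtain ⟨z0, hz0', hza, hzp⟩ := hAPX F (hSf.union hTf).toFinset (max k1 k2 + 1)
    (fun v => if v ∈ S then 1 else x) (fun _ => 1)
    (fun v => by by_cases h : v ∈ S <;> simp [h]) (fun _ => one_ne_zero)
  obtain ⟨z, rfl⟩ : ∃ z : Fˣ, (z : F) = z0 := ⟨Units.mk0 z0 hz0', rfl⟩
  have hpz : Pos (z : F) := fun φ => by simpa using hzp φ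
  have hpq : Pos ((x / z : Fˣ) : F) := fun φ => by
    rw [Units.val_div_eq_div_val, map_div₀]
    exact div_pos (hpx φ) (hpz φ)
  have hz : ∀ v ∈ S ∪ T, v.valuation F ((z : F) / (if v ∈ S then (1 : F) else (x : F)) - 1) <
      WithZero.exp (-((max k1 k2 + 1 : ℕ) : ℤ)) := fun v hv =>
    hza v ((hSf.union hTf).mem_toFinset.2 hv)
  have hlt : (WithZero.exp (-((max k1 k2 + 1 : ℕ) : ℤ)) : WithZero (Multiplicative ℤ)) <
      WithZero.exp (-((max k1 k2 : ℕ) : ℤ)) := by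
    rw [WithZero.exp_lt_exp]
    push_cast
    omega
  have hz1 : ∀ v ∈ S, v.valuation F ((z : F) - 1) < WithZero.exp (-((max k1 k2 : ℕ) : ℤ)) := by
    intro v hv
    have h := hz v (Or.inl hv)
    rw [if_pos hv, div_one] at h
    exact h.trans hlt
  have hz2 : ∀ v ∈ T, v.valuation F (((x / z : Fˣ) : F) - 1) <
      WithZero.exp (-((max k1 k2 : ℕ) : ℤ)) := by
    intro v hv
    rw [Units.val_div_eq_div_val]
    have hz0 : (z : F) ≠ 0 := z.ne_zero
    have hx0 : (x : F) ≠ 0 := x.ne_zero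
    by_cases hvS : v ∈ S
    · have hzv := hz1 v hvS
      have hzu : v.valuation F (z : F) = 1 := val_one_of_close (hzv.trans_le (exp_le_one _))
      have e : (x : F) / z - 1 = (((x : F) - 1) - ((z : F) - 1)) / z := by
        field_simp
        ring
      rw [e, map_div₀, hzu, div_one]
      exact (Valuation.map_sub _ _ _).trans_lt (max_lt (hx v ⟨hvS, hv⟩) hzv)
    · have h := hz v (Or.inr hv)
      rw [if_neg hvS] at h
      have h' := h.trans hlt
      have hu : v.valuation F ((z : F) / x) = 1 := val_one_of_close (h'.trans_le (exp_le_one _))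
      have e : (x : F) / z - 1 = -(((z : F) / x - 1) / ((z : F) / x)) := by
        field_simp
        ring
      rw [e, Valuation.map_neg, map_div₀ (v.valuation F) ((z : F) / x - 1), hu, div_one]
      exact h'
  have e : prin x = prin z + prin (x / z) := by
    rw [← prin_mul, mul_div_cancel]
  rw [e, map_add, h1 z hpz fun v hv => (hz1 v hv).trans_le (exp_anti (le_max_left _ _)),
    h2 (x / z) hpq fun v hv => (hz2 v hv).trans_le (exp_anti (le_max_right _ _)), add_zero]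

/-- from a congruence condition outside `A` -/
theorem GdP.of_cong {χ : Dv F →+ Additive ℂˣ} {A : Set (HeightOneSpectrum (𝓞 F))} {N : ℕ} (hN : N ≠ 0)
    (h : ∀ x : Fˣ, Pos (x : F) → CongAt A N (x : F) → χ (prin x) = 0) :
    GdP χ ({v | (N : 𝓞 F) ∈ v.asIdeal} ∩ A) := by
  have hf : ({v : HeightOneSpectrum (𝓞 F) | (N : 𝓞 F) ∈ v.asIdeal} ∩ A).Finite :=
    (Pool.Agent.Q125.AR.finite_dvd hN).inter_of_left _
  obtain ⟨k, hk⟩ := exists_prec hf hN
  refine ⟨hf, k, fun x hp hx => h x hp fun v hvA hvN => ?_⟩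
  exact (hx v ⟨hvN, hvA⟩).le.trans (hk v ⟨hvN, hvA⟩)

/-- removing all primes outside `R` -/
theorem GdP.remove (hAPX : Pool.Agent.Q283.FG.S_APX) {χ : Dv F →+ Additive ℂˣ} {S R : Set (HeightOneSpectrum (𝓞 F))} (hS : GdP χ S)
    (h : ∀ v ∉ R, ∃ T, GdP χ T ∧ v ∉ T) : ∃ T, GdP χ T ∧ T ⊆ R := by
  classical
  have key : ∀ U : Finset (HeightOneSpectrum (𝓞 F)), (∀ v ∈ U, v ∉ R) →
      ∃ T, GdP χ T ∧ T ⊆ S ∧ ∀ v ∈ U, v ∉ T := by
    intro U
    induction U using Finset.induction_on with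
    | empty => exact fun _ => ⟨S, hS, subset_rfl, fun v hv => absurd hv (Finset.notMem_empty v)⟩
    | insert w U _ ih =>
      intro hU
      obtain ⟨T, hT, hTS, hTU⟩ := ih fun v hv => hU v (Finset.mem_insert_of_mem hv)
      obtain ⟨T', hT', hwT'⟩ := h w (hU w (Finset.mem_insert_self _ _))
      refine ⟨T ∩ T', hT.inter hAPX hT', Set.inter_subset_left.trans hTS, fun v hv hv' => ?_⟩
      rcases Finset.mem_insert.1 hv with rfl | hv
      · exact hwT' hv'.2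
      · exact hTU v hv hv'.1
  have hfin : (S \ R).Finite := hS.1.subset Set.sdiff_subset
  obtain ⟨T, hT, hTS, hTU⟩ := key hfin.toFinset fun v hv => (hfin.mem_toFinset.1 hv).2
  refine ⟨T, hT, fun v hv => ?_⟩
  by_contra hvR
  exact hTU v (hfin.mem_toFinset.2 ⟨hTS hv, hvR⟩) hv

end

/-- Artin reciprocity for Kummer extensions of degree `p`, with positivity -/
theorem hsa_gen (hAPX : Pool.Agent.Q283.FG.S_APX) (hAR : S_AR) (hNRM : Pool.Agent.Q20.EX.S_NRM)
    (hG : S_GOOD) (hB : S_BAS) {p : ℕ} [Fact p.Prime] {F : Type} [Field F] [NumberField F] {ζ : F}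
    (hζ : IsPrimitiveRoot ζ p) (c : F) (hc0 : c ≠ 0) (hc : ¬ IsPow p c) :
    {v : HeightOneSpectrum (𝓞 F) | Dp p v ∨ vl p v c ≠ 0}.Finite ∧ ∃ k : ℕ, ∀ x : F, x ≠ 0 →
    (∀ v : HeightOneSpectrum (𝓞 F), (Dp p v ∨ vl p v c ≠ 0) →
      v.valuation F (x - 1) < WithZero.exp (-(k : ℤ))) →
    (∀ φ : F →+* ℝ, 0 < φ x) →
    {v : HeightOneSpectrum (𝓞 F) | vl p v x ≠ 0}.Finite ∧
    ∑ᶠ v : {v : HeightOneSpectrum (𝓞 F) // ¬ (Dp p v ∨ vl p v c ≠ 0)}, vl p v.1 x * sy p ζ v.1 c = 0 := by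
  classical
  have hp : p.Prime := Fact.out
  obtain ⟨R, hR⟩ : ∃ R : Set (HeightOneSpectrum (𝓞 F)), R = {v | Dp p v ∨ vl p v c ≠ 0} := ⟨_, rfl⟩
  have hfv : ∀ x : F, x ≠ 0 → {v : HeightOneSpectrum (𝓞 F) | vl p v x ≠ 0}.Finite := by
    intro x hx
    refine (prin (Units.mk0 x hx)).support.finite_toSet.subset fun v hv => ?_
    rw [Finset.mem_coe, Finsupp.mem_support_iff]
    intro h0
    apply hv
    have h1 := vl_eq (p := p) v (Units.mk0 x hx)
    rw [Units.val_mk0, h0, Int.cast_zero] at h1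
    exact h1
  have hRf : R.Finite := by
    have h1 : R ⊆ {v | (p : 𝓞 F) ∈ v.asIdeal} ∪ {v | vl p v c ≠ 0} := by
      rw [hR]
      rintro v (h | h)
      · exact Or.inl h
      · exact Or.inr h
    exact ((Pool.Agent.Q125.AR.finite_dvd hp.ne_zero).union (hfv c hc0)).subset h1
  refine ⟨hR ▸ hRf, ?_⟩
  obtain ⟨M, _, _, _, hK, hgal⟩ := exists_kumfield hζ hc
  obtain ⟨r, hr⟩ := hK.root
  have hinj : Function.Injective (algebraMap F M) := (algebraMap F M).injective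
  have hr0 : r ≠ 0 := by
    rintro rfl
    rw [zero_pow hp.ne_zero] at hr
    exact hc0 ((map_eq_zero _).1 hr.symm)
  obtain ⟨ι⟩ : Nonempty (M →+* ℂ) := inferInstance
  have hnz : NeZero p := ⟨hp.ne_zero⟩
  have hζM : IsPrimitiveRoot (algebraMap F M ζ) p := hζ.map_of_injective hinj
  have hfix : ∀ g h : M ≃ₐ[F] M, g (h ((Units.mk0 r hr0 : Mˣ) : M) / ((Units.mk0 r hr0 : Mˣ) : M)) =
      h ((Units.mk0 r hr0 : Mˣ) : M) / ((Units.mk0 r hr0 : Mˣ) : M) := by
    intro g h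
    rw [Units.val_mk0]
    have h1 : (h r / r) ^ p = 1 := by
      rw [div_pow, ← map_pow, hr, h.commutes, div_self ((_root_.map_ne_zero _).2 hc0)]
    obtain ⟨i, -, hi⟩ := hζM.eq_pow_of_pow_eq_one h1
    rw [← hi, map_pow, g.commutes]
  obtain ⟨ψ, hψ⟩ : ∃ ψ : (M ≃ₐ[F] M) →* ℂˣ, ∀ g, ((ψ g : ℂˣ) : ℂ) = ι (g r / r) :=
    ⟨Pool.Agent.Q16.EX.kumHom ι (Units.mk0 r hr0) hfix, fun g =>
      Pool.Agent.Q16.EX.kumHom_apply ι (Units.mk0 r hr0) hfix g⟩
  have hζC : IsPrimitiveRoot (ι (algebraMap F M ζ)) p := hζM.map_of_injective ι.injective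
  have hz0 : ι (algebraMap F M ζ) ≠ 0 := hζC.ne_zero hp.ne_zero
  obtain ⟨z, hz⟩ : ∃ z : ℂˣ, (z : ℂ) = ι (algebraMap F M ζ) := ⟨Units.mk0 _ hz0, rfl⟩
  have hzp : IsPrimitiveRoot z p := by
    rw [← IsPrimitiveRoot.coe_units_iff, hz]
    exact hζC
  -- the modulus
  obtain ⟨N0, hN0, -, hN0'⟩ := hAR F M ψ
  have hbase : GdP (art ψ) ({v | (N0 : 𝓞 F) ∈ v.asIdeal} ∩ Set.univ) :=
    GdP.of_cong hN0 fun x hp hx => hN0' x ⟨fun v hv => hx v trivial hv, hp⟩
  obtain ⟨T, ⟨-, k, hk⟩, hTR⟩ := hbase.remove hAPX (R := R) fun v hv => by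
    have hv' : ¬ Dp p v ∧ vl p v c = 0 := by
      rw [hR, Set.mem_ofPred_eq, not_or, not_not] at hv
      exact hv
    obtain ⟨N, hN, -, hN'⟩ := hG hNRM F M ψ v (unram hB hζ hc hK hv'.1 hv'.2)
    exact ⟨_, GdP.of_cong hN fun x hp hx => hN' x hp hx, fun h => h.2 rfl⟩
  refine ⟨k, fun x hx hxk hpos => ⟨hfv x hx, ?_⟩⟩
  obtain ⟨X, hX⟩ : ∃ X : Fˣ, (X : F) = x := ⟨Units.mk0 x hx, rfl⟩
  have h1 : art ψ (prin X) = 0 := hk X (hX ▸ hpos) fun v hv => by
    rw [hX]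
    apply hxk
    have := hTR hv
    rwa [hR] at this
  have hXR : ∀ v ∈ R, prin X v = 0 := by
    intro v hv
    rw [hR] at hv
    have h2 := val_one_of_close ((hxk v hv).trans_le (exp_le_one _))
    rw [← hX, Pool.Agent.Q125.AR.valuation_eq_exp, ← WithZero.exp_zero, WithZero.exp_inj] at h2
    omega
  have hfr : ∀ v ∉ R, ψ (frob M v) = z ^ (sy p ζ v c).val := by
    intro v hv
    rw [hR, Set.mem_ofPred_eq, not_or, not_not] at hv
    apply Units.ext
    rw [hψ, frob_root hB hζ hc hr hv.1 hv.2, Units.val_pow_eq_pow_val, hz, map_pow, map_pow]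
  have h2 : art ψ (prin X) = (∑ v ∈ (prin X).support, prin X v * ((sy p ζ v c).val : ℤ)) •
      Additive.ofMul z := by
    unfold art
    rw [Finsupp.liftAddHom_apply, Finsupp.sum]
    change _ = (zmultiplesHom (Additive ℂˣ)) (Additive.ofMul z)
      (∑ v ∈ (prin X).support, prin X v * ((sy p ζ v c).val : ℤ))
    rw [map_sum]
    refine Finset.sum_congr rfl fun v hv => ?_
    have hvR : v ∉ R := fun h => (Finsupp.mem_support_iff.1 hv) (hXR v h)
    change prin X v • Additive.ofMul (ψ (frob M v)) =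
      (prin X v * ((sy p ζ v c).val : ℤ)) • Additive.ofMul z
    rw [hfr v hvR, ofMul_pow, mul_smul, natCast_zsmul]
  rw [h2] at h1
  have h3 : z ^ (∑ v ∈ (prin X).support, prin X v * ((sy p ζ v c).val : ℤ)) = 1 := by
    have := congrArg Additive.toMul h1
    exact this
  rw [hzp.zpow_eq_one_iff_dvd, ← ZMod.intCast_zmod_eq_zero_iff_dvd] at h3
  have h4 : ∑ v ∈ (prin X).support, vl p v x * sy p ζ v c = 0 := by
    rw [← h3]
    push_cast
    refine Finset.sum_congr rfl fun v _ => ?_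
    rw [← hX, vl_eq, ZMod.natCast_zmod_val]
  have h5 : ∑ᶠ v : {v : HeightOneSpectrum (𝓞 F) // ¬ (Dp p v ∨ vl p v c ≠ 0)},
      vl p v.1 x * sy p ζ v.1 c = ∑ᶠ v ∈ Rᶜ, vl p v x * sy p ζ v c := by
    rw [← finsum_set_coe_eq_finsum_mem, hR]
    rfl
  rw [h5]
  refine Eq.trans ?_ h4
  apply finsum_mem_eq_sum_of_inter_support_eq
  ext v
  constructor
  · rintro ⟨hv, hv'⟩
    refine ⟨?_, hv'⟩
    rw [Finset.mem_coe, Finsupp.mem_support_iff]
    intro h0
    apply hv'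
    simp only [← hX, vl_eq, h0, Int.cast_zero, zero_mul]
  · rintro ⟨hv, hv'⟩
    refine ⟨fun h => ?_, hv'⟩
    exact (Finsupp.mem_support_iff.1 hv) (hXR v h)

/-- JOB HSA -/
theorem hsa (hAPX : Pool.Agent.Q283.FG.S_APX) (hBAS : Pool.Agent.Q7.LK.S_BAS) :
    Pool.Agent.Q283.FG.S_HSA := fun _ _ _ _ hζ c hc0 hc =>
  hsa_gen hAPX Pool.Agent.Q92.AR.recip Pool.Agent.Q38.EX.nrm Pool.Agent.Q111.EX.good hBAS hζ c hc0 hc

end Pool.Agent.Q68.FG
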